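import Mathlib

namespace Pool.Agent.Results.MP_8e9e7d_al.FourRelations

open MvPolynomial

universe u

/-- An integer belongs to the numerical semigroup `Γ`. -/
def MemZ (Γ : AddSubmonoid ℕ) (x : ℤ) : Prop := ∃ n ∈ Γ, (n : ℤ) = x

/-- `x` is a pseudo-Frobenius number of `Γ`. -/
def IsPF (Γ : AddSubmonoid ℕ) (x : ℤ) : Prop :=
  ¬ MemZ Γ x ∧ ∀ s ∈ Γ, s ≠ 0 → MemZ Γ (x + s)

/-- `F` is the Frobenius number of `Γ`: the largest integer not in `Γ`. -/
def IsFrob (Γ : AddSubmonoid ℕ) (F : ℤ) : Prop := ¬ MemZ Γ F ∧ ∀ x, F < x → MemZ Γ x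

/-- `Γ` is almost symmetric. -/
def AlmostSymmetric (Γ : AddSubmonoid ℕ) : Prop :=
  ∀ F, IsFrob Γ F → ∀ x, ¬ MemZ Γ x → (MemZ Γ (F - x) ∨ (IsPF Γ x ∧ IsPF Γ (F - x)))

/-- The minimal generators of `Γ`: the nonzero elements that are not sums of two nonzero
elements. -/
def minGens (Γ : AddSubmonoid ℕ) : Set ℕ :=
  {g | g ∈ Γ ∧ g ≠ 0 ∧ ∀ a ∈ Γ, ∀ b ∈ Γ, a + b = g → a = 0 ∨ b = 0}

/-- `Γ` is nearly Gorenstein. -/
def NearlyGorenstein (Γ : AddSubmonoid ℕ) : Prop :=
  ∀ g ∈ minGens Γ, ∃ p, IsPF Γ p ∧ ∀ q, IsPF Γ q → MemZ Γ (g + p - q)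

/-- The defining ideal: the kernel of `k[x_1, ..., x_e] → k[t]`, `x_i ↦ t ^ (g i)`. -/
noncomputable def defIdeal (k : Type u) [Field k] {e : ℕ} (g : Fin e → ℕ) :
    Ideal (MvPolynomial (Fin e) k) :=
  RingHom.ker (MvPolynomial.aeval (fun i => (Polynomial.X : Polynomial k) ^ g i) :
    MvPolynomial (Fin e) k →ₐ[k] Polynomial k)

/-- The minimal number of generators of the defining ideal. -/
noncomputable def rho (k : Type u) [Field k] {e : ℕ} (g : Fin e → ℕ) : ℕ :=
  (defIdeal k g).spanFinrank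

/-! ### The semigroup generated by 6, 7, 8, 9 -/

/-- The numerical semigroup `⟨6, 7, 8, 9⟩ = {0, 6, 7, 8, 9, 12, 13, ...}`. -/
def G : AddSubmonoid ℕ where
  carrier := {n | n = 0 ∨ (6 ≤ n ∧ n ≤ 9) ∨ 12 ≤ n}
  zero_mem' := Or.inl rfl
  add_mem' := by
    intro a b ha hb
    simp only [Set.mem_ofPred_eq] at *
    omega

theorem mem_G (n : ℕ) : n ∈ G ↔ (n = 0 ∨ (6 ≤ n ∧ n ≤ 9) ∨ 12 ≤ n) := Iff.rfl

theorem memZ_G (x : ℤ) : MemZ G x ↔ (x = 0 ∨ (6 ≤ x ∧ x ≤ 9) ∨ 12 ≤ x) := by
  constructor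
  · rintro ⟨n, hn, rfl⟩
    rw [mem_G] at hn
    omega
  · intro h
    refine ⟨x.toNat, ?_, by omega⟩
    rw [mem_G]
    omega

theorem isPF_G (x : ℤ) : IsPF G x ↔ (x = 10 ∨ x = 11) := by
  constructor
  · rintro ⟨h, h1⟩
    have h6 := h1 6 (by rw [mem_G]; omega) (by norm_num)
    have h7 := h1 7 (by rw [mem_G]; omega) (by norm_num)
    have h8 := h1 8 (by rw [mem_G]; omega) (by norm_num)
    have h9 := h1 9 (by rw [mem_G]; omega) (by norm_num)
    rw [memZ_G] at h h6 h7 h8 h9
    push_cast at h6 h7 h8 h9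
    omega
  · intro h
    refine ⟨by rw [memZ_G]; omega, fun s hs hs0 => ?_⟩
    rw [mem_G] at hs
    rw [memZ_G]
    omega

theorem isFrob_G : IsFrob G 11 := by
  refine ⟨by rw [memZ_G]; omega, fun x hx => ?_⟩
  rw [memZ_G]
  omega

/-- The four generators. -/
def g : Fin 4 → ℕ := ![6, 7, 8, 9]

theorem range_g : Set.range g = minGens G := by
  ext n
  constructor
  · rintro ⟨i, rfl⟩
    fin_cases i <;>
    · refine ⟨by simp [g, mem_G], by simp [g], fun a ha b hb hab => ?_⟩
      rw [mem_G] at ha hb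
      simp [g] at hab
      omega
  · rintro ⟨h, h0, h1⟩
    rw [mem_G] at h
    have hn : n = 6 ∨ n = 7 ∨ n = 8 ∨ n = 9 := by
      by_contra hne
      have h12 : 12 ≤ n := by omega
      by_cases h18 : 18 ≤ n ∨ n ≤ 15
      · have := h1 6 (by rw [mem_G]; omega) (n - 6) (by rw [mem_G]; omega) (by omega)
        omega
      · have := h1 8 (by rw [mem_G]; omega) (n - 8) (by rw [mem_G]; omega) (by omega)
        omega
    rcases hn with rfl | rfl | rfl | rfl
    · exact ⟨0, rfl⟩
    · exact ⟨1, rfl⟩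
    · exact ⟨2, rfl⟩
    · exact ⟨3, rfl⟩

theorem nearlyGorenstein_G : NearlyGorenstein G := by
  intro n hn
  rw [← range_g] at hn
  obtain ⟨i, rfl⟩ := hn
  fin_cases i
  · refine ⟨11, by rw [isPF_G]; omega, fun q hq => ?_⟩
    rw [isPF_G] at hq
    rw [memZ_G]
    simp [g]
    omega
  all_goals
    refine ⟨10, by rw [isPF_G]; omega, fun q hq => ?_⟩
    rw [isPF_G] at hq
    rw [memZ_G]
    simp [g]
    omega

theorem not_almostSymmetric_G : ¬ AlmostSymmetric G := by
  intro h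
  have := h 11 isFrob_G 1 (by rw [memZ_G]; omega)
  rw [memZ_G, isPF_G, isPF_G] at this
  omega

/-! ### The defining ideal -/

section ideal

variable (k : Type u) [Field k]

/-- The four binomials. -/
noncomputable def binoms : Set (MvPolynomial (Fin 4) k) :=
  {X 1 * X 1 - X 0 * X 2, X 1 * X 2 - X 0 * X 3, X 2 * X 2 - X 1 * X 3, X 3 * X 3 - X 0 ^ 3}

/-- The ideal generated by the four binomials. -/
noncomputable def J : Ideal (MvPolynomial (Fin 4) k) := Ideal.span (binoms k)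

/-- The class of a variable modulo `J`. -/
noncomputable def x (i : Fin 4) : MvPolynomial (Fin 4) k ⧸ J k := Ideal.Quotient.mk (J k) (X i)

theorem rel_of_mem {p q : MvPolynomial (Fin 4) k} (h : p - q ∈ binoms k) :
    Ideal.Quotient.mk (J k) p = Ideal.Quotient.mk (J k) q :=
  Ideal.Quotient.eq.mpr (Ideal.subset_span h)

theorem r11 : x k 1 * x k 1 = x k 0 * x k 2 := by
  have := rel_of_mem k (p := X 1 * X 1) (q := X 0 * X 2) (by simp [binoms])
  simpa [x] using this

theorem r12 : x k 1 * x k 2 = x k 0 * x k 3 := by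
  have := rel_of_mem k (p := X 1 * X 2) (q := X 0 * X 3) (by simp [binoms])
  simpa [x] using this

theorem r22 : x k 2 * x k 2 = x k 1 * x k 3 := by
  have := rel_of_mem k (p := X 2 * X 2) (q := X 1 * X 3) (by simp [binoms])
  simpa [x] using this

theorem r33 : x k 3 * x k 3 = x k 0 ^ 3 := by
  have := rel_of_mem k (p := X 3 * X 3) (q := X 0 ^ 3) (by simp [binoms])
  simpa [x] using this

/-- Weights of the Apéry monomials. -/
def w : Fin 6 → ℕ := ![0, 7, 8, 9, 16, 17]

/-- The Apéry monomials. -/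
noncomputable def m : Fin 6 → MvPolynomial (Fin 4) k ⧸ J k :=
  ![1, x k 1, x k 2, x k 3, x k 1 * x k 3, x k 2 * x k 3]

theorem step (i : Fin 4) (a : ℕ) (r : Fin 6) :
    ∃ (a' : ℕ) (r' : Fin 6), 6 * a + w r + g i = 6 * a' + w r' ∧
      x k 0 ^ a * m k r * x k i = x k 0 ^ a' * m k r' := by
  have h11 := r11 k
  have h12 := r12 k
  have h22 := r22 k
  have h33 := r33 k
  fin_cases i
  · refine ⟨a + 1, r, by simp [g]; ring, by simp; ring⟩
  · fin_cases r
    · exact ⟨a, 1, by simp [g, w], by simp [m]⟩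
    · exact ⟨a + 1, 2, by simp [g, w]; ring, by simp [m]; linear_combination x k 0 ^ a * h11⟩
    · exact ⟨a + 1, 3, by simp [g, w]; ring, by simp [m]; linear_combination x k 0 ^ a * h12⟩
    · exact ⟨a, 4, by simp [g, w], by simp [m]; ring⟩
    · exact ⟨a + 1, 5, by simp [g, w]; ring,
        by simp [m]; linear_combination x k 0 ^ a * x k 3 * h11⟩
    · exact ⟨a + 4, 0, by simp [g, w]; ring,
        by simp [m]; linear_combination x k 0 ^ a * x k 3 * h12 + x k 0 ^ (a + 1) * h33⟩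
  · fin_cases r
    · exact ⟨a, 2, by simp [g, w], by simp [m]⟩
    · exact ⟨a + 1, 3, by simp [g, w]; ring, by simp [m]; linear_combination x k 0 ^ a * h12⟩
    · exact ⟨a, 4, by simp [g, w], by simp [m]; linear_combination x k 0 ^ a * h22⟩
    · exact ⟨a, 5, by simp [g, w], by simp [m]; ring⟩
    · exact ⟨a + 4, 0, by simp [g, w]; ring,
        by simp [m]; linear_combination x k 0 ^ a * x k 3 * h12 + x k 0 ^ (a + 1) * h33⟩
    · exact ⟨a + 3, 1, by simp [g, w]; ring,
        by simp [m]; linear_combination x k 0 ^ a * x k 3 * h22 + x k 0 ^ a * x k 1 * h33⟩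
  · fin_cases r
    · exact ⟨a, 3, by simp [g, w], by simp [m]⟩
    · exact ⟨a, 4, by simp [g, w], by simp [m]; ring⟩
    · exact ⟨a, 5, by simp [g, w], by simp [m]; ring⟩
    · exact ⟨a + 3, 0, by simp [g, w]; ring, by simp [m]; linear_combination x k 0 ^ a * h33⟩
    · exact ⟨a + 3, 1, by simp [g, w]; ring,
        by simp [m]; linear_combination x k 0 ^ a * x k 1 * h33⟩
    · exact ⟨a + 3, 2, by simp [g, w]; ring,
        by simp [m]; linear_combination x k 0 ^ a * x k 2 * h33⟩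

/-- Normal form of weight `n`. -/
noncomputable def nf (n : ℕ) : MvPolynomial (Fin 4) k ⧸ J k :=
  x k 0 ^ ((n - w ⟨n % 6, Nat.mod_lt _ (by norm_num)⟩) / 6) *
    m k ⟨n % 6, Nat.mod_lt _ (by norm_num)⟩

theorem nf_eq (a : ℕ) (r : Fin 6) : nf k (6 * a + w r) = x k 0 ^ a * m k r := by
  have hw : w r % 6 = r.val := by revert r; decide
  have h1 : (6 * a + w r) % 6 = r.val := by omega
  have h2 : (⟨(6 * a + w r) % 6, Nat.mod_lt _ (by norm_num)⟩ : Fin 6) = r := Fin.ext h1
  rw [nf, h2, Nat.add_sub_cancel, Nat.mul_div_cancel_left a (by norm_num : 0 < 6)]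

/-- The evaluation map. -/
noncomputable abbrev phi : MvPolynomial (Fin 4) k →ₐ[k] Polynomial k :=
  MvPolynomial.aeval (fun i => (Polynomial.X : Polynomial k) ^ g i)

/-- The section `t ^ n ↦ nf n`. -/
noncomputable def psi : Polynomial k →ₗ[k] (MvPolynomial (Fin 4) k ⧸ J k) :=
  (Polynomial.basisMonomials k).constr k (nf k)

theorem psi_X (n : ℕ) : psi k (Polynomial.X ^ n) = nf k n := by
  have := (Polynomial.basisMonomials k).constr_basis k (nf k) n
  rw [Polynomial.coe_basisMonomials] at this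
  rwa [Polynomial.X_pow_eq_monomial]

theorem mono_form (s : Fin 4 →₀ ℕ) (c : k) :
    ∃ (c' : k) (a : ℕ) (r : Fin 6),
      Ideal.Quotient.mk (J k) (monomial s c) = c' • (x k 0 ^ a * m k r) ∧
      phi k (monomial s c) = c' • (Polynomial.X ^ (6 * a + w r) : Polynomial k) := by
  refine MvPolynomial.induction_on_monomial
    (motive := fun p => ∃ (c' : k) (a : ℕ) (r : Fin 6),
      Ideal.Quotient.mk (J k) p = c' • (x k 0 ^ a * m k r) ∧
      phi k p = c' • (Polynomial.X ^ (6 * a + w r) : Polynomial k)) ?_ ?_ s c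
  · intro a
    refine ⟨a, 0, 0, ?_, ?_⟩
    · simp only [pow_zero, m, Matrix.cons_val_zero, mul_one]
      exact Algebra.algebraMap_eq_smul_one (A := MvPolynomial (Fin 4) k ⧸ J k) a
    · simp [w, Algebra.smul_def]
  · rintro p i ⟨c', a, r, h1, h2⟩
    obtain ⟨a', r', e1, e2⟩ := step k i a r
    refine ⟨c', a', r', ?_, ?_⟩
    · rw [map_mul, h1, ← e2, smul_mul_assoc]
      rfl
    · rw [map_mul, h2, ← e1, smul_mul_assoc]
      simp only [phi, aeval_X]
      rw [← pow_add]

theorem mk_eq (p : MvPolynomial (Fin 4) k) : Ideal.Quotient.mk (J k) p = psi k (phi k p) := by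
  have h : (Ideal.Quotient.mkₐ k (J k)).toLinearMap = psi k ∘ₗ (phi k).toLinearMap := by
    refine MvPolynomial.linearMap_ext fun s => LinearMap.ext fun c => ?_
    obtain ⟨c', a, r, h1, h2⟩ := mono_form k s c
    simp only [LinearMap.comp_apply, AlgHom.toLinearMap_apply, Ideal.Quotient.mkₐ_eq_mk]
    rw [h1, h2, map_smul, psi_X, nf_eq]
  exact congrArg (fun f => f p) h

theorem ker_eq : defIdeal k g = J k := by
  apply le_antisymm
  · intro p hp
    have hp' : phi k p = 0 := hp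
    have h := mk_eq k p
    rw [hp', map_zero] at h
    exact Ideal.Quotient.eq_zero_iff_mem.mp h
  · refine Ideal.span_le.mpr ?_
    intro p hp
    have hp' : p ∈ binoms k := hp
    change phi k p = 0
    simp only [binoms, Set.mem_insert_iff, Set.mem_singleton_iff] at hp'
    rcases hp' with rfl | rfl | rfl | rfl <;> simp [phi, g] <;> ring

theorem rho_le : rho k g ≤ 4 := by
  rw [rho, ker_eq]
  have hfin : (binoms k).Finite := by
    unfold binoms
    exact Set.toFinite _
  refine (Submodule.spanFinrank_span_le_ncard_of_finite hfin).trans ?_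
  simp only [binoms]
  refine (Set.ncard_insert_le _ _).trans ?_
  refine Nat.succ_le_succ ((Set.ncard_insert_le _ _).trans ?_)
  refine Nat.succ_le_succ ((Set.ncard_insert_le _ _).trans ?_)
  simp

end ideal

/-- **Q1 is false.**  There is a numerical semigroup `Γ` (namely `⟨6, 7, 8, 9⟩`) of embedding
dimension four that is nearly Gorenstein and not almost symmetric, whose defining ideal is
generated by at most four elements over every field, so that its minimal number of relations is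
neither `5` nor `6`. -/
theorem result : ∃ Γ : AddSubmonoid ℕ, {n : ℕ | n ∉ Γ}.Finite ∧
    NearlyGorenstein Γ ∧ ¬ AlmostSymmetric Γ ∧
    ∃ g : Fin 4 → ℕ, StrictMono g ∧ Set.range g = minGens Γ ∧
      ∀ (k : Type u) [Field k], rho k g ≤ 4 ∧ rho k g ≠ 5 ∧ rho k g ≠ 6 := by
  refine ⟨G, ?_, nearlyGorenstein_G, not_almostSymmetric_G, g, ?_, range_g, fun k _ => ?_⟩
  · refine (Set.finite_lt_nat 12).subset fun n hn => ?_
    simp only [Set.mem_ofPred_eq, mem_G] at hn ⊢
    omega
  · intro i j hij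
    fin_cases i <;> fin_cases j <;> simp_all [g]
  · have := rho_le k
    omega

end Pool.Agent.Results.MP_8e9e7d_al.FourRelations
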